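import Pool.Agent.R496.RS.Skel

/-!
Retractional skeletons indexed by their ranges: cofinality and the new skeleton.
-/

set_option autoImplicit false

open Set Filter Topology

namespace Pool.Agent.R496.RS

universe u v

variable {K : Type u} [TopologicalSpace K] {Γ : Type v} [PartialOrder Γ] {R : RetrSkeleton K Γ}
  [CompactSpace K] [T2Space K] {lt : K → K → Prop} [IsWellOrder K lt]

/-- every `K_t` is contained in the closure of a countable subset of the left-separated set -/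
theorem Ks_sub_closure (t : Γ) : ∃ B ⊆ EE R lt, B.Countable ∧ range (R.r t) ⊆ closure B := by
  have hm := R.metr t
  have hcs : CompactSpace (range (R.r t)) :=
    isCompact_iff_compactSpace.1 (isCompact_range (R.cont t))
  let _ := TopologicalSpace.metrizableSpaceMetric (range (R.r t))
  obtain ⟨q, hq, hqd⟩ := TopologicalSpace.exists_countable_dense (range (R.r t))
  have h1 : ∀ x : K, ∃ B ⊆ EE R lt, B.Countable ∧ (x ∈ R.induced → x ∈ closure B) := by
    intro x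
    by_cases h : x ∈ R.induced
    · obtain ⟨B, hB, hBc, hxB⟩ := tight R h (EE_sub R lt) (EE_dense R lt h)
      exact ⟨B, hB, hBc, fun _ => hxB⟩
    · exact ⟨∅, empty_subset _, countable_empty, fun h' => absurd h' h⟩
  choose B hB1 hB2 hB3 using h1
  refine ⟨⋃ x ∈ q, B x.1, iUnion₂_subset fun x _ => hB1 _, hq.biUnion fun x _ => hB2 _, ?_⟩
  intro x hx
  have h2 : Subtype.val '' q ⊆ closure (⋃ x ∈ q, B x.1) := by
    rintro _ ⟨y, hy, rfl⟩
    exact closure_mono (subset_biUnion_of_mem (u := fun x : range (R.r t) => B x.1) hy)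
      (hB3 _ (Ks_sub R t y.2))
  have h3 : (⟨x, hx⟩ : range (R.r t)) ∈ closure q := hqd _
  have h4 : x ∈ closure (Subtype.val '' q) := by
    have := image_closure_subset_closure_image (continuous_subtype_val
      (p := fun y => y ∈ range (R.r t))) (s := q)
    exact this ⟨_, h3, rfl⟩
  exact closure_minimal h2 isClosed_closure h4

/-- cofinality -/
theorem Data.cofinal (Q : Data R lt) {A0 : Set K} (h0 : Q.Cl A0) (s0 : Γ) :
    ∃ A, A0 ⊆ A ∧ Q.Cl A ∧ ∃ t, s0 ≤ t ∧ ∀ x, R.r (Q.S A) x = R.r t x := by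
  have hstep : ∀ p : {A : Set K // Q.Cl A} × Γ, ∃ p' : {A : Set K // Q.Cl A} × Γ,
      p.1.1 ⊆ p'.1.1 ∧ p.2 ≤ p'.2 ∧ Q.S p'.1.1 ≤ p'.2 ∧ range (R.r p.2) ⊆ closure p'.1.1 := by
    rintro ⟨⟨A, hA⟩, t⟩
    obtain ⟨B, hB, hBc, htB⟩ := Ks_sub_closure (R := R) (lt := lt) t
    obtain ⟨A', hA', hcl⟩ := Q.exists_hull (union_subset hA.sub hB) (hA.count.union hBc)
    obtain ⟨t', h1, h2⟩ := R.directed t (Q.S A')
    exact ⟨⟨⟨A', hcl⟩, t'⟩, subset_union_left.trans hA', h1, h2,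
      htB.trans (closure_mono (subset_union_right.trans hA'))⟩
  choose st hst1 hst2 hst3 hst4 using hstep
  obtain ⟨t0, ht0, -⟩ := R.directed s0 s0
  let p : ℕ → {A : Set K // Q.Cl A} × Γ := fun n => st^[n] (⟨A0, h0⟩, t0)
  have hsucc : ∀ n, p (n + 1) = st (p n) := fun n => Function.iterate_succ_apply' st n _
  have hAm : Monotone (fun n => (p n).1.1) := monotone_nat_of_le_succ (fun n => by
    simp only [hsucc]; exact hst1 _)
  have htm : Monotone (fun n => (p n).2) := monotone_nat_of_le_succ (fun n => by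
    simp only [hsucc]; exact hst2 _)
  obtain ⟨t, ht⟩ := R.hasSup _ htm
  have hcl : Q.Cl (⋃ n, (p n).1.1) := Data.Cl.iUnion hAm (fun n => (p n).1.2)
  have hSlub := Q.S_iUnion hAm (fun n => (p n).1.2.count)
  have hle : Q.S (⋃ n, (p n).1.1) ≤ t := by
    apply hSlub.2
    rintro _ ⟨n, rfl⟩
    have h1 : Q.S (p n).1.1 ≤ Q.S (p (n + 1)).1.1 :=
      Q.S_mono (p n).1.2.count (p (n + 1)).1.2.count (hAm (Nat.le_succ n))
    have h2 : Q.S (p (n + 1)).1.1 ≤ (p (n + 1)).2 := by rw [hsucc]; exact hst3 _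
    exact h1.trans (h2.trans (ht.1 ⟨n + 1, rfl⟩))
  refine ⟨⋃ n, (p n).1.1, subset_iUnion (fun n => (p n).1.1) 0, hcl, t,
    le_trans ht0 (ht.1 ⟨0, rfl⟩), fun x => ?_⟩
  have h5 : R.r t x ∈ closure (⋃ n, (p n).1.1) := by
    have h6 := R.seq _ t htm ht x
    exact isClosed_closure.mem_of_tendsto h6
      (Eventually.of_forall fun n => by
        have h7 : R.r (p n).2 x ∈ closure (p (n + 1)).1.1 := by
          rw [hsucc]; exact hst4 _ (mem_range_self x)
        exact closure_mono (subset_iUnion (fun n => (p n).1.1) (n + 1)) h7)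
  rw [hcl.closure_eq] at h5
  have h8 := (mem_Ks R).1 h5
  rw [← (R.comp _ _ hle x).1] at h8
  exact h8

/-- the limit condition -/
theorem Data.lim (Q : Data R lt) (x : K) {U : Set K} (hU : U ∈ 𝓝 x) :
    ∃ A0, Q.Cl A0 ∧ ∀ A, Q.Cl A → A0 ⊆ A → R.r (Q.S A) x ∈ U := by
  obtain ⟨O, hOU, hO, hxO⟩ := mem_nhds_iff.1 hU
  obtain ⟨W, hW, hWc, hWO⟩ := exists_mem_nhds_isClosed_subset (hO.mem_nhds hxO)
  have : IsDirectedOrder Γ := ⟨R.directed⟩
  have := R.ne
  obtain ⟨s0, hs0⟩ := mem_atTop_sets.1 ((R.lim x) hW)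
  by_contra hcon
  push Not at hcon
  have hstep : ∀ B : {A : Set K // Q.Cl A}, ∃ q : {A : Set K // Q.Cl A} × {A : Set K // Q.Cl A},
      B.1 ⊆ q.1.1 ∧ q.1.1 ⊆ q.2.1 ∧ R.r (Q.S q.1.1) x ∈ W ∧ R.r (Q.S q.2.1) x ∉ U := by
    rintro ⟨B, hB⟩
    obtain ⟨A, hBA, hA, t, ht, heq⟩ := Q.cofinal hB s0
    obtain ⟨B', hB', hAB', hx⟩ := hcon A hA
    refine ⟨(⟨A, hA⟩, ⟨B', hB'⟩), hBA, hAB', ?_, hx⟩
    change R.r (Q.S A) x ∈ W
    rw [heq]
    exact hs0 t ht
  choose st hst1 hst2 hst3 hst4 using hstep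
  obtain ⟨B0, -, hB0⟩ := Q.exists_hull (B := ∅) (empty_subset _) countable_empty
  let B : ℕ → {A : Set K // Q.Cl A} := fun n => (fun b => (st b).2)^[n] ⟨B0, hB0⟩
  have hsucc : ∀ n, B (n + 1) = (st (B n)).2 :=
    fun n => Function.iterate_succ_apply' (fun b => (st b).2) n _
  have hBA : ∀ n, (B n).1 ⊆ (st (B n)).1.1 := fun n => hst1 _
  have hAB : ∀ n, (st (B n)).1.1 ⊆ (B (n + 1)).1 := fun n => by rw [hsucc]; exact hst2 _
  have hBm : Monotone (fun n => (B n).1) :=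
    monotone_nat_of_le_succ (fun n => (hBA n).trans (hAB n))
  have hAm : Monotone (fun n => (st (B n)).1.1) :=
    monotone_nat_of_le_succ (fun n => (hAB n).trans (hBA (n + 1)))
  have hun : (⋃ n, (B n).1) = ⋃ n, (st (B n)).1.1 := by
    apply Subset.antisymm
    · exact iUnion_subset fun n => (hBA n).trans (subset_iUnion (fun n => (st (B n)).1.1) n)
    · exact iUnion_subset fun n => (hAB n).trans (subset_iUnion (fun n => (B n).1) (n + 1))
  have l1 := R.seq _ _ (fun m n h => Q.S_mono (B m).2.count (B n).2.count (hBm h))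
    (Q.S_iUnion hBm (fun n => (B n).2.count)) x
  have l2 := R.seq _ _ (fun m n h => Q.S_mono (st (B m)).1.2.count (st (B n)).1.2.count (hAm h))
    (Q.S_iUnion hAm (fun n => (st (B n)).1.2.count)) x
  rw [← hun] at l2
  have m2 : R.r (Q.S (⋃ n, (B n).1)) x ∈ W :=
    hWc.mem_of_tendsto l2 (Eventually.of_forall fun n => hst3 _)
  have m1 : R.r (Q.S (⋃ n, (B n).1)) x ∈ Oᶜ := by
    refine hO.isClosed_compl.mem_of_tendsto (l1.comp (tendsto_add_atTop_nat 1))
      (Eventually.of_forall fun n => ?_)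
    have h5 := hst4 (B n)
    rw [← hsucc] at h5
    exact fun h6 => h5 (hOU h6)
  exact m1 (hWO m2)

/-- the family of ranges -/
def Data.Fam (Q : Data R lt) : Set (Set K) := {F | ∃ A, Q.Cl A ∧ F = range (R.r (Q.S A))}

theorem Data.fam_spec (Q : Data R lt) (F : Q.Fam) :
    Q.Cl (EE R lt ∩ F.1) ∧ range (R.r (Q.S (EE R lt ∩ F.1))) = F.1 := by
  obtain ⟨F, A, hA, rfl⟩ := F
  simp only [hA.inter_eq]
  exact ⟨hA, trivial⟩

theorem Data.fam_mk (Q : Data R lt) {A : Set K} (hA : Q.Cl A) :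
    ∃ F : Q.Fam, EE R lt ∩ F.1 = A ∧ F.1 = range (R.r (Q.S A)) :=
  ⟨⟨_, A, hA, rfl⟩, hA.inter_eq, rfl⟩

theorem Data.fam_le (Q : Data R lt) {F G : Q.Fam} (h : F ≤ G) :
    Q.S (EE R lt ∩ F.1) ≤ Q.S (EE R lt ∩ G.1) :=
  Q.S_mono (Q.fam_spec F).1.count (Q.fam_spec G).1.count (inter_subset_inter_right _ h)

theorem Data.fam_sup (Q : Data R lt) (F : ℕ → Q.Fam) (hF : Monotone F) :
    ∃ G : Q.Fam, IsLUB (range F) G ∧ G.1 = closure (⋃ n, (F n).1) ∧
      Q.S (EE R lt ∩ G.1) = Q.S (⋃ n, EE R lt ∩ (F n).1) := by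
  have hm : Monotone (fun n => EE R lt ∩ (F n).1) :=
    fun m n h => inter_subset_inter_right _ (hF h)
  have hcl : Q.Cl (⋃ n, EE R lt ∩ (F n).1) := Data.Cl.iUnion hm (fun n => (Q.fam_spec (F n)).1)
  obtain ⟨G, hG1, hG2⟩ := Q.fam_mk hcl
  have hle : ∀ n, F n ≤ G := by
    intro n
    change (F n).1 ⊆ G.1
    rw [hG2, ← (Q.fam_spec (F n)).2]
    exact Ks_mono R (Q.S_mono (Q.fam_spec (F n)).1.count hcl.count
      (subset_iUnion (fun n => EE R lt ∩ (F n).1) n))
  refine ⟨G, ⟨?_, ?_⟩, ?_, by rw [hG1]⟩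
  · rintro _ ⟨n, rfl⟩; exact hle n
  · intro H hH
    change G.1 ⊆ H.1
    rw [hG2, ← (Q.fam_spec H).2]
    exact Ks_mono R (Q.S_mono hcl.count (Q.fam_spec H).1.count
      (iUnion_subset fun n => inter_subset_inter_right _ (hH ⟨n, rfl⟩)))
  · apply Subset.antisymm
    · rw [hG2, ← hcl.closure_eq]
      exact closure_mono (iUnion_mono fun n => inter_subset_right)
    · apply closure_minimal (iUnion_subset fun n => hle n)
      rw [hG2]
      exact Ks_closed R _

/-- the new skeleton -/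
noncomputable def Data.skel (Q : Data R lt) : RetrSkeleton K Q.Fam where
  r := fun F => R.r (Q.S (EE R lt ∩ F.1))
  ne := by
    obtain ⟨A, -, hA⟩ := Q.exists_hull (B := ∅) (empty_subset _) countable_empty
    obtain ⟨F, -, -⟩ := Q.fam_mk hA
    exact ⟨F⟩
  directed := by
    intro F G
    obtain ⟨A, hFG, hA⟩ := Q.exists_hull (union_subset (Q.fam_spec F).1.sub (Q.fam_spec G).1.sub)
      ((Q.fam_spec F).1.count.union (Q.fam_spec G).1.count)
    obtain ⟨H, -, hH2⟩ := Q.fam_mk hA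
    refine ⟨H, ?_, ?_⟩
    · change F.1 ⊆ H.1
      rw [hH2, ← (Q.fam_spec F).2]
      exact Ks_mono R (Q.S_mono (Q.fam_spec F).1.count hA.count (subset_union_left.trans hFG))
    · change G.1 ⊆ H.1
      rw [hH2, ← (Q.fam_spec G).2]
      exact Ks_mono R (Q.S_mono (Q.fam_spec G).1.count hA.count (subset_union_right.trans hFG))
  hasSup := by
    intro F hF
    obtain ⟨G, hG, -⟩ := Q.fam_sup F hF
    exact ⟨G, hG⟩
  cont := fun F => R.cont _
  idem := fun F => R.idem _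
  metr := fun F => R.metr _
  comp := fun F G h => R.comp _ _ (Q.fam_le h)
  seq := by
    intro F T hF hT x
    obtain ⟨G, hG, -, hG2⟩ := Q.fam_sup F hF
    have hTG : T = G := hT.unique hG
    rw [hTG, hG2]
    have hm : Monotone (fun n => EE R lt ∩ (F n).1) :=
      fun m n h => inter_subset_inter_right _ (hF h)
    exact R.seq _ _ (fun m n h => Q.fam_le (hF h))
      (Q.S_iUnion hm (fun n => (Q.fam_spec (F n)).1.count)) x
  lim := by
    intro x U hU
    obtain ⟨A0, hA0, h⟩ := Q.lim x hU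
    obtain ⟨F0, hF1, hF2⟩ := Q.fam_mk hA0
    rw [mem_map]
    refine mem_of_superset (mem_atTop F0) (fun F hF => ?_)
    refine h _ (Q.fam_spec F).1 ?_
    rw [← hF1]
    exact inter_subset_inter_right _ hF

theorem Data.skel_induced (Q : Data R lt) : Q.skel.induced = R.induced := by
  apply Subset.antisymm
  · intro x hx
    obtain ⟨F, hF⟩ := (mem_induced Q.skel).1 hx
    exact Ks_sub R _ hF
  · intro x hx
    obtain ⟨B, hB, hBc, hxB⟩ := tight R hx (EE_sub R lt) (EE_dense R lt hx)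
    obtain ⟨A, hBA, hA⟩ := Q.exists_hull hB hBc
    obtain ⟨F, hF1, hF2⟩ := Q.fam_mk hA
    refine (mem_induced Q.skel).2 ⟨F, ?_⟩
    change x ∈ range (R.r (Q.S (EE R lt ∩ F.1)))
    rw [hF1, ← hA.closure_eq]
    exact closure_mono hBA hxB

theorem main {K : Type u} [TopologicalSpace K] [CompactSpace K] [T2Space K] {Γ : Type v}
    [PartialOrder Γ] (R : RetrSkeleton K Γ) :
    ∃ (𝓕 : Set (Set K)) (S : RetrSkeleton K 𝓕),
      (∀ F : 𝓕, IsCompact F.1 ∧ Set.range (S.r F) = F.1) ∧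
      (∀ F : ℕ → 𝓕, Monotone F → ∃ G : 𝓕, IsLUB (Set.range F) G ∧
        G.1 = closure (⋃ n, (F n).1)) ∧
      S.induced = R.induced := by
  obtain ⟨V, hVo, hV⟩ := exists_V R
  obtain ⟨σ, hσ, hσm⟩ := exists_sigma R
  let Q : Data R (WellOrderingRel (α := K)) := ⟨V, hVo, hV, σ, hσ, hσm⟩
  refine ⟨Q.Fam, Q.skel, fun F => ?_, fun F hF => ?_, Q.skel_induced⟩
  · have h1 : Set.range (Q.skel.r F) = F.1 := (Q.fam_spec F).2
    refine ⟨?_, h1⟩
    rw [← h1]
    exact isCompact_range (Q.skel.cont F)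
  · obtain ⟨G, hG1, hG2, -⟩ := Q.fam_sup F hF
    exact ⟨G, hG1, hG2⟩

end Pool.Agent.R496.RS
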