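import Mathlib

/-!
Retractional skeletons indexed by their ranges (paper proof by helper823, formalised by helper496).
-/

set_option autoImplicit false

open Set Filter Topology

namespace Pool.Agent.R496.RS

universe u v

/-- A retractional skeleton on `K` indexed by `Γ`. -/
structure RetrSkeleton (K : Type u) [TopologicalSpace K] (Γ : Type v) [PartialOrder Γ] where
  /-- the retractions -/
  r : Γ → K → K
  ne : Nonempty Γ
  directed : ∀ s t : Γ, ∃ w, s ≤ w ∧ t ≤ w
  hasSup : ∀ s : ℕ → Γ, Monotone s → ∃ t, IsLUB (Set.range s) t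
  cont : ∀ s, Continuous (r s)
  idem : ∀ s x, r s (r s x) = r s x
  metr : ∀ s, TopologicalSpace.MetrizableSpace (Set.range (r s))
  comp : ∀ s t, s ≤ t → ∀ x, r s x = r s (r t x) ∧ r s x = r t (r s x)
  seq : ∀ (s : ℕ → Γ) (t : Γ), Monotone s → IsLUB (Set.range s) t →
    ∀ x, Tendsto (fun n => r (s n) x) atTop (𝓝 (r t x))
  lim : ∀ x, Tendsto (fun s => r s x) atTop (𝓝 x)

/-- The induced set. -/
def RetrSkeleton.induced {K : Type u} [TopologicalSpace K] {Γ : Type v} [PartialOrder Γ]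
    (R : RetrSkeleton K Γ) : Set K := ⋃ s, Set.range (R.r s)

variable {K : Type u} [TopologicalSpace K] {Γ : Type v} [PartialOrder Γ] (R : RetrSkeleton K Γ)

theorem mem_Ks {s : Γ} {x : K} : x ∈ range (R.r s) ↔ R.r s x = x := by
  constructor
  · rintro ⟨y, rfl⟩; exact R.idem s y
  · intro h; exact ⟨x, h⟩

theorem Ks_mono {s t : Γ} (h : s ≤ t) : range (R.r s) ⊆ range (R.r t) := by
  rintro _ ⟨y, rfl⟩
  exact ⟨R.r s y, ((R.comp s t h y).2).symm⟩

theorem mem_induced {x : K} : x ∈ R.induced ↔ ∃ s, x ∈ range (R.r s) := by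
  simp [RetrSkeleton.induced]

theorem Ks_sub (s : Γ) : range (R.r s) ⊆ R.induced := fun _ hx => (mem_induced R).2 ⟨s, hx⟩

include R in
/-- upper bounds of sequences -/
theorem seq_bdd (s : Γ) (c : ℕ → Γ) : ∃ t, s ≤ t ∧ ∀ n, c n ≤ t := by
  choose w hw1 hw2 using R.directed
  let t : ℕ → Γ := fun n => Nat.rec s (fun n q => w q (c n)) n
  have ht : ∀ n, t (n + 1) = w (t n) (c n) := fun n => rfl
  have hm : Monotone t := monotone_nat_of_le_succ (fun n => by rw [ht]; exact hw1 _ _)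
  obtain ⟨l, hl⟩ := R.hasSup t hm
  refine ⟨l, hl.1 ⟨0, rfl⟩, fun n => ?_⟩
  exact le_trans (by rw [ht]; exact hw2 _ _) (hl.1 ⟨n + 1, rfl⟩)

variable [CompactSpace K] [T2Space K]

theorem Ks_closed (s : Γ) : IsClosed (range (R.r s)) :=
  (isCompact_range (R.cont s)).isClosed

/-- the countable families of open sets -/
theorem exists_V : ∃ V : Γ → ℕ → Set K, (∀ s i, IsOpen (V s i)) ∧
    ∀ s z (O : Set K), IsOpen O → R.r s z ∈ O → ∃ i, z ∈ V s i ∧ ∀ y ∈ V s i, R.r s y ∈ O := by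
  have key : ∀ s : Γ, ∃ V : ℕ → Set K, (∀ i, IsOpen (V i)) ∧
      ∀ z (O : Set K), IsOpen O → R.r s z ∈ O → ∃ i, z ∈ V i ∧ ∀ y ∈ V i, R.r s y ∈ O := by
    intro s
    have := R.metr s
    have : CompactSpace (range (R.r s)) :=
      isCompact_iff_compactSpace.1 (isCompact_range (R.cont s))
    let _ := TopologicalSpace.metrizableSpaceMetric (range (R.r s))
    obtain ⟨B, hBc, -, hB⟩ := TopologicalSpace.exists_countable_basis (range (R.r s))
    obtain ⟨f, hf⟩ := (hBc.insert univ).exists_eq_range ⟨univ, mem_insert _ _⟩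
    let π : K → range (R.r s) := fun x => ⟨R.r s x, mem_range_self x⟩
    have hπ : Continuous π := (R.cont s).subtype_mk _
    refine ⟨fun i => π ⁻¹' (f i), fun i => ?_, fun z O hO hz => ?_⟩
    · have h1 : f i ∈ insert univ B := by rw [hf]; exact mem_range_self i
      have h2 : IsOpen (f i) := by
        rcases mem_insert_iff.1 h1 with h | h
        · rw [h]; exact isOpen_univ
        · exact hB.isOpen h
      exact h2.preimage hπ
    · have h1 : IsOpen (Subtype.val ⁻¹' O : Set (range (R.r s))) :=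
        hO.preimage continuous_subtype_val
      obtain ⟨b, hb, hzb, hbO⟩ := hB.exists_subset_of_mem_open (a := π z) hz h1
      have h2 : b ∈ range f := by rw [← hf]; exact mem_insert_of_mem _ hb
      obtain ⟨i, rfl⟩ := h2
      exact ⟨i, hzb, fun y hy => hbO hy⟩
  choose V hV1 hV2 using key
  exact ⟨V, hV1, hV2⟩

/-- base lemma -/
theorem base_lemma {V : Γ → ℕ → Set K}
    (hV : ∀ s z (O : Set K), IsOpen O → R.r s z ∈ O → ∃ i, z ∈ V s i ∧ ∀ y ∈ V s i, R.r s y ∈ O)
    {s : ℕ → Γ} {t : Γ} (hs : Monotone s) (ht : IsLUB (range s) t) {z : K}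
    (hz : z ∈ range (R.r t)) {U : Set K} (hU : IsOpen U) (hzU : z ∈ U) :
    ∃ n i, z ∈ V (s n) i ∧ ∀ y ∈ V (s n) i, y ∈ range (R.r t) → y ∈ U := by
  have hC : IsCompact (range (R.r t) \ U) := (isCompact_range (R.cont t)).diff hU
  have key : ∃ m : ℕ, ∃ O : Set K, IsOpen O ∧ R.r (s m) z ∈ O ∧
      ∀ y ∈ range (R.r t) \ U, R.r (s m) y ∉ O := by
    refine hC.induction_on (p := fun S => ∃ m : ℕ, ∃ O : Set K, IsOpen O ∧ R.r (s m) z ∈ O ∧
      ∀ y ∈ S, R.r (s m) y ∉ O) ?_ ?_ ?_ ?_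
    · exact ⟨0, univ, isOpen_univ, mem_univ _, fun y hy => absurd hy (notMem_empty y)⟩
    · rintro S S' hSS ⟨m, O, hO, h1, h2⟩
      exact ⟨m, O, hO, h1, fun y hy => h2 y (hSS hy)⟩
    · rintro S S' ⟨m, O, hO, h1, h2⟩ ⟨m', O', hO', h1', h2'⟩
      have e1 : ∀ y, R.r (s m) (R.r (s (max m m')) y) = R.r (s m) y := fun y =>
        ((R.comp _ _ (hs (le_max_left m m')) y).1).symm
      have e2 : ∀ y, R.r (s m') (R.r (s (max m m')) y) = R.r (s m') y := fun y =>
        ((R.comp _ _ (hs (le_max_right m m')) y).1).symm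
      refine ⟨max m m', R.r (s m) ⁻¹' O ∩ R.r (s m') ⁻¹' O',
        (hO.preimage (R.cont _)).inter (hO'.preimage (R.cont _)), ⟨?_, ?_⟩, ?_⟩
      · rw [mem_preimage, e1]; exact h1
      · rw [mem_preimage, e2]; exact h1'
      · rintro y (hy | hy) ⟨hy1, hy2⟩
        · rw [mem_preimage, e1] at hy1; exact h2 y hy hy1
        · rw [mem_preimage, e2] at hy2; exact h2' y hy hy2
    · rintro c ⟨hc, hcU⟩
      have hne : c ≠ z := fun h => hcU (h ▸ hzU)
      have hex : ∃ n, R.r (s n) c ≠ R.r (s n) z := by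
        by_contra hcon
        push Not at hcon
        have l1 := R.seq s t hs ht c
        have l2 := R.seq s t hs ht z
        rw [(mem_Ks R).1 hc] at l1
        rw [(mem_Ks R).1 hz] at l2
        have : (fun n => R.r (s n) c) = fun n => R.r (s n) z := funext hcon
        rw [this] at l1
        exact hne (tendsto_nhds_unique l1 l2)
      obtain ⟨n, hn⟩ := hex
      obtain ⟨O, O', hO, hO', h1, h2, h3⟩ := t2_separation hn
      refine ⟨R.r (s n) ⁻¹' O, mem_nhdsWithin_of_mem_nhds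
        ((hO.preimage (R.cont _)).mem_nhds h1), n, O', hO', h2, fun y hy hy' => ?_⟩
      exact (disjoint_left.1 h3) hy hy'
  obtain ⟨m, O, hO, h1, h2⟩ := key
  obtain ⟨i, hi, hi'⟩ := hV (s m) z O hO h1
  refine ⟨m, i, hi, fun y hy hyt => ?_⟩
  by_contra hyU
  exact h2 y ⟨hyt, hyU⟩ (hi' y hy)

/-- countable tightness of the induced set -/
theorem tight {x : K} (hx : x ∈ R.induced) {B : Set K} (hB : B ⊆ R.induced)
    (hxB : x ∈ closure B) : ∃ B0 ⊆ B, B0.Countable ∧ x ∈ closure B0 := by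
  classical
  obtain ⟨V, hVo, hV⟩ := exists_V R
  obtain ⟨s0, hs0⟩ := (mem_induced R).1 hx
  have hb : ∀ s i, ∃ b : K, x ∈ V s i → b ∈ B ∧ b ∈ V s i := by
    intro s i
    by_cases h : x ∈ V s i
    · obtain ⟨b, hb⟩ := mem_closure_iff.1 hxB (V s i) (hVo s i) h
      exact ⟨b, fun _ => ⟨hb.2, hb.1⟩⟩
    · exact ⟨x, fun h' => absurd h' h⟩
  choose b hb using hb
  have hstep : ∀ s, ∃ t, s ≤ t ∧ ∀ i, x ∈ V s i → b s i ∈ range (R.r t) := by
    intro s
    have h1 : ∀ i, ∃ c : Γ, x ∈ V s i → b s i ∈ range (R.r c) := by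
      intro i
      by_cases h : x ∈ V s i
      · obtain ⟨c, hc⟩ := (mem_induced R).1 (hB (hb s i h).1)
        exact ⟨c, fun _ => hc⟩
      · exact ⟨s, fun h' => absurd h' h⟩
    choose c hc using h1
    obtain ⟨t, ht, ht'⟩ := seq_bdd R s c
    exact ⟨t, ht, fun i hi => Ks_mono R (ht' i) (hc i hi)⟩
  choose st hst1 hst2 using hstep
  let s : ℕ → Γ := fun n => st^[n] s0
  have hsucc : ∀ n, s (n + 1) = st (s n) := fun n => Function.iterate_succ_apply' st n s0
  have hm : Monotone s := monotone_nat_of_le_succ (fun n => by rw [hsucc]; exact hst1 _)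
  obtain ⟨t, ht⟩ := R.hasSup s hm
  refine ⟨{y | ∃ n i, x ∈ V (s n) i ∧ y = b (s n) i}, ?_, ?_, ?_⟩
  · rintro y ⟨n, i, h, rfl⟩; exact (hb _ _ h).1
  · have : {y | ∃ n i, x ∈ V (s n) i ∧ y = b (s n) i} ⊆
        range (fun q : ℕ × ℕ => b (s q.1) q.2) := by
      rintro y ⟨n, i, -, rfl⟩; exact ⟨(n, i), rfl⟩
    exact (countable_range _).mono this
  · rw [mem_closure_iff]
    intro U hU hxU
    have hxt : x ∈ range (R.r t) := Ks_mono R (ht.1 ⟨0, rfl⟩) hs0
    obtain ⟨n, i, h1, h2⟩ := base_lemma R hV hm ht hxt hU hxU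
    refine ⟨b (s n) i, h2 _ (hb _ _ h1).2 ?_, n, i, h1, rfl⟩
    have h3 := hst2 (s n) i h1
    rw [← hsucc] at h3
    exact Ks_mono R (ht.1 ⟨n + 1, rfl⟩) h3

/-- `x` is the least element of `O ∩ D` for a well-order of `K`. -/
def IsMin (lt : K → K → Prop) (O : Set K) (x : K) : Prop :=
  x ∈ O ∧ x ∈ R.induced ∧ ∀ y ∈ O, y ∈ R.induced → ¬ lt y x

/-- the left-separated dense set -/
def EE (lt : K → K → Prop) : Set K := {x | ∃ O, IsOpen O ∧ IsMin R lt O x}

omit [CompactSpace K] [T2Space K] in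
theorem isMin_unique (lt : K → K → Prop) [IsWellOrder K lt] {O : Set K} {x y : K}
    (hx : IsMin R lt O x) (hy : IsMin R lt O y) : x = y := by
  rcases trichotomous_of lt x y with h | h | h
  · exact absurd h (hy.2.2 x hx.1 hx.2.1)
  · exact h
  · exact absurd h (hx.2.2 y hy.1 hy.2.1)

omit [CompactSpace K] [T2Space K] in
theorem exists_isMin (lt : K → K → Prop) [IsWellOrder K lt] {O : Set K} {z : K} (hz : z ∈ O)
    (hz' : z ∈ R.induced) : ∃ x, IsMin R lt O x := by
  have wf : WellFounded lt := IsWellFounded.wf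
  obtain ⟨x, hx, hmin⟩ := wf.has_min (O ∩ R.induced) ⟨z, hz, hz'⟩
  exact ⟨x, hx.1, hx.2, fun y hy hy' => hmin y ⟨hy, hy'⟩⟩

omit [CompactSpace K] [T2Space K] in
theorem EE_sub (lt : K → K → Prop) : EE R lt ⊆ R.induced := fun _ ⟨_, _, h⟩ => h.2.1

omit [CompactSpace K] [T2Space K] in
theorem EE_dense (lt : K → K → Prop) [IsWellOrder K lt] : R.induced ⊆ closure (EE R lt) := by
  intro x hx
  rw [mem_closure_iff]
  intro O hO hxO
  obtain ⟨y, hy⟩ := exists_isMin R lt hxO hx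
  exact ⟨y, hy.1, O, hO, hy⟩

/-- a monotone map on the finite sets -/
theorem exists_sigma : ∃ σ : Finset K → Γ, Monotone σ ∧
    ∀ x ∈ R.induced, ∀ a : Finset K, x ∈ a → x ∈ range (R.r (σ a)) := by
  classical
  have hne := R.ne
  have : IsDirectedOrder Γ := ⟨R.directed⟩
  have hub : ∀ S : Finset Γ, ∃ w, ∀ t ∈ S, t ≤ w := fun S => Finset.exists_le S
  choose ub hub using hub
  have hρ : ∀ x : K, ∃ s : Γ, x ∈ R.induced → x ∈ range (R.r s) := by
    intro x
    by_cases h : x ∈ R.induced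
    · obtain ⟨s, hs⟩ := (mem_induced R).1 h; exact ⟨s, fun _ => hs⟩
    · exact ⟨Classical.choice hne, fun h' => absurd h' h⟩
  choose ρ hρ using hρ
  let H : (a : Finset K) → ((b : Finset K) → b ⊂ a → Γ) → Γ := fun a ih =>
    ub ((a.ssubsets.attach.image (fun b => ih b.1 (Finset.mem_ssubsets.1 b.2))) ∪ a.image ρ)
  let σ : Finset K → Γ := Finset.strongInduction H
  have hσ : ∀ a, σ a = ub ((a.ssubsets.attach.image (fun b => σ b.1)) ∪ a.image ρ) := by
    intro a
    exact Finset.strongInduction_eq H a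
  have h1 : ∀ a b : Finset K, b ⊂ a → σ b ≤ σ a := by
    intro a b hba
    rw [hσ a]
    apply hub
    apply Finset.mem_union_left
    exact Finset.mem_image.2 ⟨⟨b, Finset.mem_ssubsets.2 hba⟩, Finset.mem_attach _ _, rfl⟩
  refine ⟨σ, fun b a hba => ?_, fun x hx a hxa => ?_⟩
  · rcases eq_or_ne b a with h | h
    · rw [h]
    · exact h1 a b (lt_of_le_of_ne hba h)
  · have h2 : ρ x ≤ σ a := by
      rw [hσ a]
      exact hub _ _ (Finset.mem_union_right _ (Finset.mem_image_of_mem ρ hxa))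
    exact Ks_mono R h2 (hρ x hx)

theorem exists_seq_finset {α : Type*} {A : Set α} (hA : A.Countable) :
    ∃ a : ℕ → Finset α, Monotone a ∧ (∀ n, (a n : Set α) ⊆ A) ∧
      ∀ b : Finset α, (b : Set α) ⊆ A → ∃ n, b ⊆ a n := by
  classical
  rcases A.eq_empty_or_nonempty with rfl | hne
  · refine ⟨fun _ => ∅, monotone_const, fun _ => by simp, fun b hb => ⟨0, ?_⟩⟩
    intro x hx
    exact absurd (hb (Finset.mem_coe.2 hx)) (notMem_empty x)
  · obtain ⟨f, rfl⟩ := hA.exists_eq_range hne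
    refine ⟨fun n => (Finset.range n).image f, fun m n hmn => ?_, fun n => ?_, fun b => ?_⟩
    · exact Finset.image_subset_image (Finset.range_mono hmn)
    · intro x hx
      obtain ⟨k, -, rfl⟩ := Finset.mem_image.1 (Finset.mem_coe.1 hx)
      exact mem_range_self k
    · induction b using Finset.induction_on with
      | empty => intro _; exact ⟨0, Finset.empty_subset _⟩
      | insert x b _ ih =>
        intro hb
        obtain ⟨n, hn⟩ := ih (fun y hy => hb (Finset.mem_coe.2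
          (Finset.mem_insert_of_mem (Finset.mem_coe.1 hy))))
        obtain ⟨k, rfl⟩ := hb (Finset.mem_coe.2 (Finset.mem_insert_self x b))
        refine ⟨max n (k + 1), fun y hy => ?_⟩
        rcases Finset.mem_insert.1 hy with rfl | hy
        · exact Finset.mem_image.2 ⟨k, Finset.mem_range.2 (lt_of_lt_of_le (Nat.lt_succ_self k)
            (le_max_right _ _)), rfl⟩
        · exact Finset.image_subset_image (Finset.range_mono (le_max_left _ _)) (hn hy)

/-- the data used in the proof -/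
structure Data (lt : K → K → Prop) where
  V : Γ → ℕ → Set K
  Vo : ∀ s i, IsOpen (V s i)
  hV : ∀ s z (O : Set K), IsOpen O → R.r s z ∈ O → ∃ i, z ∈ V s i ∧ ∀ y ∈ V s i, R.r s y ∈ O
  σ : Finset K → Γ
  mono : Monotone σ
  mem : ∀ x ∈ R.induced, ∀ a : Finset K, x ∈ a → x ∈ range (R.r (σ a))

variable {R} {lt : K → K → Prop}

/-- suprema of countable sets -/
theorem Data.exists_sup (Q : Data R lt) {A : Set K} (hA : A.Countable) :
    ∃ w, IsLUB {t | ∃ a : Finset K, (a : Set K) ⊆ A ∧ t = Q.σ a} w ∧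
      ∃ a : ℕ → Finset K, Monotone a ∧ (∀ n, (a n : Set K) ⊆ A) ∧
        IsLUB (range (fun n => Q.σ (a n))) w := by
  obtain ⟨a, ha, haA, hab⟩ := exists_seq_finset hA
  obtain ⟨w, hw⟩ := R.hasSup (fun n => Q.σ (a n)) (fun m n h => Q.mono (ha h))
  refine ⟨w, ⟨?_, ?_⟩, a, ha, haA, hw⟩
  · rintro t ⟨b, hb, rfl⟩
    obtain ⟨n, hn⟩ := hab b hb
    exact le_trans (Q.mono hn) (hw.1 ⟨n, rfl⟩)
  · intro w' hw'
    apply hw.2
    rintro _ ⟨n, rfl⟩
    exact hw' ⟨a n, haA n, rfl⟩

open Classical in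
/-- the supremum of a countable set -/
noncomputable def Data.S (Q : Data R lt) (A : Set K) : Γ :=
  if h : A.Countable then (Q.exists_sup h).choose else Q.σ ∅

theorem Data.S_lub (Q : Data R lt) {A : Set K} (hA : A.Countable) :
    IsLUB {t | ∃ a : Finset K, (a : Set K) ⊆ A ∧ t = Q.σ a} (Q.S A) := by
  unfold Data.S
  rw [dif_pos hA]
  exact (Q.exists_sup hA).choose_spec.1

theorem Data.S_seq (Q : Data R lt) {A : Set K} (hA : A.Countable) :
    ∃ a : ℕ → Finset K, Monotone a ∧ (∀ n, (a n : Set K) ⊆ A) ∧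
        IsLUB (range (fun n => Q.σ (a n))) (Q.S A) := by
  unfold Data.S
  rw [dif_pos hA]
  exact (Q.exists_sup hA).choose_spec.2

theorem Data.S_mono (Q : Data R lt) {A B : Set K} (hA : A.Countable) (hB : B.Countable)
    (h : A ⊆ B) : Q.S A ≤ Q.S B := by
  apply (Q.S_lub hA).2
  rintro t ⟨a, ha, rfl⟩
  exact (Q.S_lub hB).1 ⟨a, ha.trans h, rfl⟩

theorem Data.sub_Ks (Q : Data R lt) {A : Set K} (hA : A.Countable) (hD : A ⊆ R.induced) :
    A ⊆ range (R.r (Q.S A)) := by
  intro x hx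
  have h1 := Q.mem x (hD hx) {x} (Finset.mem_singleton_self x)
  refine Ks_mono R ((Q.S_lub hA).1 ⟨{x}, ?_, rfl⟩) h1
  intro y hy
  rw [Finset.coe_singleton, mem_singleton_iff] at hy
  rw [hy]; exact hx

theorem finset_sub_iUnion {α : Type*} {A : ℕ → Set α} (hA : Monotone A) {a : Finset α}
    (ha : (a : Set α) ⊆ ⋃ n, A n) : ∃ n, (a : Set α) ⊆ A n := by
  classical
  induction a using Finset.induction_on with
  | empty => exact ⟨0, by simp⟩
  | insert x b _ ih =>
    rw [Finset.coe_insert, insert_subset_iff] at ha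
    obtain ⟨n, hn⟩ := ih ha.2
    obtain ⟨m, hm⟩ := mem_iUnion.1 ha.1
    refine ⟨max n m, ?_⟩
    rw [Finset.coe_insert, insert_subset_iff]
    exact ⟨hA (le_max_right n m) hm, hn.trans (hA (le_max_left n m))⟩

theorem Data.S_iUnion (Q : Data R lt) {A : ℕ → Set K} (hA : Monotone A)
    (hc : ∀ n, (A n).Countable) : IsLUB (range (fun n => Q.S (A n))) (Q.S (⋃ n, A n)) := by
  have hU : (⋃ n, A n).Countable := countable_iUnion hc
  constructor
  · rintro _ ⟨n, rfl⟩
    exact Q.S_mono (hc n) hU (subset_iUnion A n)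
  · intro w hw
    apply (Q.S_lub hU).2
    rintro t ⟨a, ha, rfl⟩
    obtain ⟨n, hn⟩ := finset_sub_iUnion hA ha
    exact le_trans ((Q.S_lub (hc n)).1 ⟨a, hn, rfl⟩) (hw ⟨n, rfl⟩)

/-- closed countable subsets of the left-separated set -/
structure Data.Cl (Q : Data R lt) (A : Set K) : Prop where
  sub : A ⊆ EE R lt
  count : A.Countable
  cl : ∀ a : Finset K, (a : Set K) ⊆ A → ∀ i x, IsMin R lt (Q.V (Q.σ a) i) x → x ∈ A

theorem Data.Cl.iUnion {Q : Data R lt} {A : ℕ → Set K} (hA : Monotone A)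
    (h : ∀ n, Q.Cl (A n)) : Q.Cl (⋃ n, A n) := by
  refine ⟨iUnion_subset fun n => (h n).sub, countable_iUnion fun n => (h n).count, ?_⟩
  intro a ha i x hx
  obtain ⟨n, hn⟩ := finset_sub_iUnion hA ha
  exact mem_iUnion.2 ⟨n, (h n).cl a hn i x hx⟩

theorem countable_finsets {α : Type*} {A : Set α} (hA : A.Countable) :
    {a : Finset α | (a : Set α) ⊆ A}.Countable := by
  classical
  obtain ⟨a, -, -, hab⟩ := exists_seq_finset hA
  have : {b : Finset α | (b : Set α) ⊆ A} ⊆ ⋃ n, ((a n).powerset : Set (Finset α)) := by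
    intro b hb
    obtain ⟨n, hn⟩ := hab b hb
    exact mem_iUnion.2 ⟨n, Finset.mem_coe.2 (Finset.mem_powerset.2 hn)⟩
  exact (countable_iUnion fun n => (Finset.finite_toSet _).countable).mono this

theorem Data.exists_hull [IsWellOrder K lt] (Q : Data R lt) {B : Set K} (hB : B ⊆ EE R lt)
    (hBc : B.Countable) : ∃ A, B ⊆ A ∧ Q.Cl A := by
  let N : Set K → Set K := fun A => A ∪ ⋃ a ∈ {a : Finset K | (a : Set K) ⊆ A}, ⋃ i : ℕ,
    {x | IsMin R lt (Q.V (Q.σ a) i) x}
  let A : ℕ → Set K := fun n => N^[n] B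
  have hsucc : ∀ n, A (n + 1) = N (A n) := fun n => Function.iterate_succ_apply' N n B
  have hm : Monotone A := monotone_nat_of_le_succ (fun n => by
    rw [hsucc]; exact subset_union_left)
  have hprop : ∀ n, A n ⊆ EE R lt ∧ (A n).Countable := by
    intro n
    induction n with
    | zero => exact ⟨hB, hBc⟩
    | succ n ih =>
      rw [hsucc]
      constructor
      · refine union_subset ih.1 ?_
        refine iUnion₂_subset fun a _ => iUnion_subset fun i => ?_
        intro x hx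
        exact ⟨_, Q.Vo _ _, hx⟩
      · refine ih.2.union ((countable_finsets ih.2).biUnion fun a _ => countable_iUnion fun i => ?_)
        exact Set.Subsingleton.countable (fun x hx y hy => isMin_unique R lt hx hy)
  refine ⟨⋃ n, A n, subset_iUnion A 0, iUnion_subset fun n => (hprop n).1,
    countable_iUnion fun n => (hprop n).2, ?_⟩
  intro a ha i x hx
  obtain ⟨n, hn⟩ := finset_sub_iUnion hm ha
  refine mem_iUnion.2 ⟨n + 1, ?_⟩
  rw [hsucc]
  exact Or.inr (mem_iUnion₂.2 ⟨a, hn, mem_iUnion.2 ⟨i, hx⟩⟩)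

theorem Data.Cl.closure_eq [IsWellOrder K lt] {Q : Data R lt} {A : Set K} (h : Q.Cl A) :
    closure A = range (R.r (Q.S A)) := by
  have hAD : A ⊆ R.induced := h.sub.trans (EE_sub R lt)
  apply Subset.antisymm
  · exact closure_minimal (Q.sub_Ks h.count hAD) (Ks_closed R _)
  · intro z hz
    rw [mem_closure_iff]
    intro U hU hzU
    obtain ⟨a, ha, haA, hlub⟩ := Q.S_seq h.count
    obtain ⟨n, i, h1, h2⟩ := base_lemma R Q.hV (fun m n h => Q.mono (ha h)) hlub hz hU hzU
    obtain ⟨y, hy⟩ := exists_isMin R lt h1 (Ks_sub R _ hz)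
    have hyA := h.cl (a n) (haA n) i y hy
    exact ⟨y, h2 y hy.1 (Q.sub_Ks h.count hAD hyA), hyA⟩

theorem Data.Cl.inter_eq [IsWellOrder K lt] {Q : Data R lt} {A : Set K} (h : Q.Cl A) :
    EE R lt ∩ range (R.r (Q.S A)) = A := by
  have hAD : A ⊆ R.induced := h.sub.trans (EE_sub R lt)
  apply Subset.antisymm
  · rintro x ⟨⟨O, hO, hx⟩, hxK⟩
    obtain ⟨a, ha, haA, hlub⟩ := Q.S_seq h.count
    obtain ⟨n, i, h1, h2⟩ := base_lemma R Q.hV (fun m n h => Q.mono (ha h)) hlub hxK hO hx.1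
    obtain ⟨y, hy⟩ := exists_isMin R lt h1 hx.2.1
    have hyA := h.cl (a n) (haA n) i y hy
    have hyO := h2 y hy.1 (Q.sub_Ks h.count hAD hyA)
    rcases trichotomous_of lt x y with h3 | h3 | h3
    · exact absurd h3 (hy.2.2 x h1 hx.2.1)
    · rw [h3]; exact hyA
    · exact absurd h3 (hx.2.2 y hyO hy.2.1)
  · exact subset_inter h.sub (Q.sub_Ks h.count hAD)

end Pool.Agent.R496.RS
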